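import Mathlib

/-!
# Project p2w: (MP_70a088_an, walls, FINITE STAGE): the GATE of the end game

Input: (1) a closed two walled vertical slice in the time coordinate (`SLC`, output of the pure limit part of helper37), or a repelling centre of the field; (2) sequences (`FS`, part of helper98's limit world `LW`), everything in the plane coordinate `w = (z - y)/r` of the stage (`r` = conformal radius of `V_n(y)` at `y`): `F j` = plane version of `f^(m j)`, `D j` = plane version of `V_n(y)`, `W` = its kernel, `V` = the entire limit of `(F j - id)/ε j`.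
Output: the structure `Gate` (one stage, step units), input of helper10's `NRC` / helper28's `NRG`, and the contradiction row `JBX`.

RULES. File `Pool/Agent/<seat>/P2W/XX.lean`: `import Pool.Agent.helper60.P2W.Gate` (and any other file you want to use), `set_option autoImplicit false`, `open Complex Metric Set Filter Topology MeasureTheory`, `noncomputable section`, `namespace P2W`, `theorem XX (h : YY_stmt) ... : XX_stmt`.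
Hypotheses: statements of this file which stand before XX, and all proved statements of the library. Auxiliary lemmas prefixed `XX_`. No `sorry`, no straight double quotes in comments, no `#` commands. Tell helper60 at once if a statement is false or does not fit.
-/

set_option autoImplicit false

open Complex Metric Set Filter Topology MeasureTheory

noncomputable section

namespace P2W

/-! ## Definitions -/

/-- the open rectangle `|Re z| < ℓ`, `a < Im z < b`. -/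
def BX (ℓ a b : ℝ) : Set ℂ := {z | |z.re| < ℓ ∧ a < z.im ∧ z.im < b}

/-- the domain of the chart of a slice. -/
def Rc (x₀ η a b : ℝ) : Set ℂ := {z | |z.re - x₀| < η ∧ a < z.im ∧ z.im < b}

/-- holomorphic logarithms of `z - k`, `k ∉ D`, exist on `D` (simply connected sets). -/
def LGP (D : Set ℂ) : Prop := ∀ k ∉ D, ∃ L : ℂ → ℂ, DifferentiableOn ℂ L D ∧ ∀ z ∈ D, exp (L z) = z - k

/-- CLOSED TWO WALLED SLICE in the time coordinate: `g' = V (g)`, `g (x₀ + i t) ∈ W` for `t₁ < t < t₂`, the two ends are finite and not in `W` (they may coincide). -/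
structure SLC (W : Set ℂ) (V g : ℂ → ℂ) (x₀ t₁ t₂ η : ℝ) : Prop where
  lt : t₁ < t₂
  pos : 0 < η
  dif : DifferentiableOn ℂ g (Rc x₀ η (t₁ - η) (t₂ + η))
  ode : ∀ z ∈ Rc x₀ η (t₁ - η) (t₂ + η), deriv g z = V (g z) ∧ V (g z) ≠ 0
  mem : ∀ t ∈ Ioo t₁ t₂, g ⟨x₀, t⟩ ∈ W
  inj : ∀ t ∈ Ioo t₁ t₂, ∀ t' ∈ Ioo t₁ t₂, g ⟨x₀, t⟩ = g ⟨x₀, t'⟩ → t = t'
  e1 : g ⟨x₀, t₁⟩ ∉ W
  e2 : g ⟨x₀, t₂⟩ ∉ W

/-- the sequences, in the plane coordinate of the stage. -/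
structure FS (U : Ultrafilter ℕ) (W : Set ℂ) (V : ℂ → ℂ) (F : ℕ → ℂ → ℂ) (D : ℕ → Set ℂ) (ε : ℕ → ℝ) : Prop where
  hU : (U : Filter ℕ) ≤ atTop
  oW : IsOpen W
  ve : Differentiable ℂ V
  fe : ∀ j, Differentiable ℂ (F j)
  ep : ∀ j, 0 < ε j
  e0 : Tendsto ε U (𝓝 0)
  cv : TendstoLocallyUniformlyOn (fun j w => (F j w - w) / (ε j : ℂ)) V U univ
  oD : ∀ᶠ j in (U : Filter ℕ), IsOpen (D j)
  lg : ∀ᶠ j in (U : Filter ℕ), LGP (D j)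
  kW : ∀ K : Set ℂ, IsCompact K → K ⊆ W → ∀ᶠ j in (U : Filter ℕ), K ⊆ D j
  ker : ∀ N : Set ℂ, IsOpen N → IsPreconnected N → (N ∩ W).Nonempty → (∀ᶠ j in (U : Filter ℕ), N ⊆ D j) → N ⊆ W

/-- THE GATE, one stage. `F` = the map, `D` = `V_n(y)`; `ψ` = chart in STEP units (`F ∘ ψ = ψ ∘ A`, `A` close to `z + 1`), heights `0 < Im < h`; `sg` = the crosscut of `D` (`ψ` of the vertical segment, and two short ends inside the exit discs `ball bm th`, `ball bp th`), `Lf`, `Rt` = its sides, `B` = box. -/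
structure Gate (F : ℂ → ℂ) (D : Set ℂ) (bm bp : ℂ) (th : ℝ) (ψ A : ℂ → ℂ) (ℓ h δ : ℝ) (sg Lf Rt B : Set ℂ) : Prop where
  l8 : 8 ≤ ℓ
  h8 : 8 ≤ h
  dl : δ ≤ 1 / 100
  dψ : DifferentiableOn ℂ ψ (BX ℓ (-8) (h + 8))
  iψ : InjOn ψ (BX ℓ (-8) (h + 8))
  mψ : MapsTo ψ (BX ℓ (-8) (h + 8)) D
  dA : DifferentiableOn ℂ A (BX (ℓ - 2) (-6) (h + 6))
  A1 : ∀ z ∈ BX (ℓ - 2) (-6) (h + 6), ‖A z - z - 1‖ ≤ δ ∧ F (ψ z) = ψ (A z)
  oL : IsOpen Lf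
  oR : IsOpen Rt
  dj : Disjoint Lf Rt
  dL : Disjoint Lf sg
  dR : Disjoint Rt sg
  cov : D ⊆ Lf ∪ Rt ∪ sg
  le : ∀ z ∈ BX ℓ (-8) (h + 8), z.re < 0 → ψ z ∈ Lf
  mi : ∀ z ∈ BX ℓ (-8) (h + 8), z.re = 0 → ψ z ∈ sg
  ri : ∀ z ∈ BX ℓ (-8) (h + 8), 0 < z.re → ψ z ∈ Rt
  pB : IsPreconnected B
  BD : B ⊆ D
  BB : ∀ z : ℂ, |z.re| ≤ 3 → -4 ≤ z.im → z.im ≤ h + 4 → ψ z ∈ B
  gs : ∀ v ∈ sg, v ∉ ball bm th → v ∉ ball bp th → F v ∈ B ∩ Rt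

/-- `SI g a b w = ∫ dz/(z - w)` over the arc `g ([a,b])`. -/
def SI (g : ℂ → ℂ) (a b w : ℂ) : ℂ := ∫ t in (0 : ℝ)..1, deriv g (a + t * (b - a)) * (b - a) / (g (a + t * (b - a)) - w)

/-! ## 1. Pure rows: the integral `SI` -/

/-- SIE (short): exponential of `SI`.
PROOF. `u t = g (a + t (b-a)) - w` is `C¹` on a neighbourhood of `[0,1]`, has no zero: `d/dt (u t * exp (-∫_0^t u'/u)) = 0`. -/
def SIE_stmt : Prop := ∀ (g : ℂ → ℂ) (G : Set ℂ) (a b w : ℂ), IsOpen G → DifferentiableOn ℂ g G → segment ℝ a b ⊆ G → w ∉ g '' segment ℝ a b →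
  (g a - w) * exp (SI g a b w) = g b - w

/-- SIC (short): `SI` is continuous off the arc.
PROOF. The integrand is jointly continuous in `(t, w)` for `t ∈ [0,1]`, `w` off the compact arc (`intervalIntegral.continuousOn..`, dominated convergence). -/
def SIC_stmt : Prop := ∀ (g : ℂ → ℂ) (G : Set ℂ) (a b : ℂ), IsOpen G → DifferentiableOn ℂ g G → segment ℝ a b ⊆ G →
  ContinuousOn (fun w => SI g a b w) (g '' segment ℝ a b)ᶜ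

/-- SIJ (medium): the JUMP of `SI` across the arc (left value minus right value `= 2πi`).
PROOF. `c = a + t₀ (b - a)`, `w± = g (c ± x i (b - a))`. For `t ∈ [0,1]`, `z` near `t₀`: `G(z) = g (a + z (b-a))`, `G'(t)/(G(t) - G(z)) = 1/(t - z) + κ(t,z)`, `κ = (G'(t)(t-z) - (G(t) - G(z)))/((t-z)(G(t)-G(z)))`. The numerator is `≤ C ‖t-z‖²`; `‖G(t) - G(z)‖ ≥ c ‖t - z‖` for `t ∈ [0,1]`, `z` near `t₀`
(near `t₀`: `G'(t₀) ≠ 0`; for `t` away from `t₀`: `G(t) ≠ G(t₀)` and compactness): `κ` is bounded. For `z → t₀`, `t ≠ t₀` fixed: `κ(t,z) → κ(t,t₀)`: dominated convergence: `∫ κ(t,t₀+ix) - κ(t,t₀-ix) dt → 0`. And `∫_0^1 (1/(t-t₀-ix) - 1/(t-t₀+ix)) dt = 2i ∫_0^1 x/((t-t₀)²+x²) dt = 2i (arctan((1-t₀)/x) + arctan(t₀/x)) → 2πi`. -/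
def SIJ_stmt : Prop := ∀ (g : ℂ → ℂ) (G : Set ℂ) (a b : ℂ) (t₀ : ℝ), IsOpen G → DifferentiableOn ℂ g G → segment ℝ a b ⊆ G → a ≠ b → 0 < t₀ → t₀ < 1 →
  deriv g (a + t₀ * (b - a)) ≠ 0 → (∀ t ∈ Icc (0 : ℝ) 1, t ≠ t₀ → g (a + t * (b - a)) ≠ g (a + t₀ * (b - a))) →
  Tendsto (fun x : ℝ => SI g a b (g (a + t₀ * (b - a) + x * I * (b - a))) - SI g a b (g (a + t₀ * (b - a) - x * I * (b - a)))) (𝓝[>] 0) (𝓝 (2 * Real.pi * I))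

/-- SID (medium): THE SIDES of a crosscut. Uses SIE, SIC, SIJ.
PROOF. `sg = g '' (segment a b ∪ segment b c ∪ segment c d)` is compact, `D' = D \ sg` is open. `e₋ = g a ∉ D`, `e₊ = g d ∉ D`: `θ` on `D` holomorphic with `exp θ = (w - e₊)/(w - e₋)` (`LGP`, difference of two logarithms). `A w = SI g a b w + SI g b c w + SI g c d w`: `exp A = (e₊ - w)/(e₋ - w)` (SIE) and continuous (SIC) on `D'`:
`N w = (A w - θ w)/(2πi)` is continuous on `D'` with integer values. At `ζ₀ = ⟨x₀, (q₁+q₂)/2⟩ ∈ segment b c` (interior point): `ζ₀ ∓ x ∈ Q`; `SI g a b`, `SI g c d`, `θ` are continuous at `g ζ₀` (`g ζ₀` is not on the two end arcs: `g z = g ζ → z = ζ`), and `SIJ` for `segment b c` (direction `i (c.im - b.im)`; left of it = smaller real part):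
`N (g (ζ₀ - x)) - N (g (ζ₀ + x)) → 1`, so `= 1` for small `x`. `g` of the left part of `Q` (`Re < x₀`) is connected and in `D'` (`z = ζ` has `Re = x₀` for `ζ ∈ segment b c`; for `ζ` on the end segments `z = ζ ∈ Q` is excluded by `hq`): `N` is constant `= N₀` there, `= N₀ - 1` on the right part.
`Lf = {w ∈ D' | N w = N₀}`, `Rt = {w ∈ D' | N w ≠ N₀}` are open (`N` is continuous with integer values). -/
def SID_stmt : Prop := ∀ (D : Set ℂ) (g : ℂ → ℂ) (G : Set ℂ) (a b c d : ℂ) (x₀ η q₁ q₂ : ℝ), IsOpen D → LGP D → IsOpen G → DifferentiableOn ℂ g G →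
  segment ℝ a b ⊆ G → segment ℝ b c ⊆ G → segment ℝ c d ⊆ G → b.re = x₀ → c.re = x₀ → 0 < η → b.im < q₁ → q₁ < q₂ → q₂ < c.im →
  g a ∉ D → g d ∉ D → Rc x₀ η q₁ q₂ ⊆ G → MapsTo g (Rc x₀ η q₁ q₂) D → (∀ z ∈ Rc x₀ η q₁ q₂, deriv g z ≠ 0) →
  (∀ z ∈ Rc x₀ η q₁ q₂, z ∉ segment ℝ a b ∧ z ∉ segment ℝ c d) →
  (∀ z ∈ Rc x₀ η q₁ q₂, ∀ ζ ∈ segment ℝ a b ∪ segment ℝ b c ∪ segment ℝ c d, g z = g ζ → z = ζ) →
  ∃ Lf Rt : Set ℂ, IsOpen Lf ∧ IsOpen Rt ∧ Disjoint Lf Rt ∧ Disjoint Lf (g '' (segment ℝ a b ∪ segment ℝ b c ∪ segment ℝ c d)) ∧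
    Disjoint Rt (g '' (segment ℝ a b ∪ segment ℝ b c ∪ segment ℝ c d)) ∧ D ⊆ Lf ∪ Rt ∪ g '' (segment ℝ a b ∪ segment ℝ b c ∪ segment ℝ c d) ∧
    (∀ z ∈ Rc x₀ η q₁ q₂, z.re < x₀ → g z ∈ Lf) ∧ (∀ z ∈ Rc x₀ η q₁ q₂, x₀ < z.re → g z ∈ Rt)

/-! ## 2. The slice -/

/-- INW (short/medium): injectivity near the trimmed slice, separation from the ends.
PROOF. The compact sets `K = {x₀ + i t | t₁+τ ≤ t ≤ t₂-τ}`, `E₁ = {.. | t₁ ≤ t ≤ t₁ + τ/2}`, `E₂`: `g` is injective on `K`, locally injective (`deriv ≠ 0`): injective on a neighbourhood (`Set.InjOn.exists_mem_nhdsSet`), `g '' K ⊆ W` open; `g '' K` is disjoint from `g '' E₁`, `g '' E₂` (`inj`, `e1`, `e2`), compact, so the images of small closed neighbourhoods are disjoint too. -/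
def INW_stmt : Prop := ∀ (W : Set ℂ) (V g : ℂ → ℂ) (x₀ t₁ t₂ η : ℝ), IsOpen W → Differentiable ℂ V → SLC W V g x₀ t₁ t₂ η → ∀ τ : ℝ, 0 < τ → τ < (t₂ - t₁) / 4 →
  ∃ η' > (0 : ℝ), η' < η ∧ η' < τ / 4 ∧ InjOn g {z | |z.re - x₀| ≤ η' ∧ t₁ + τ ≤ z.im ∧ z.im ≤ t₂ - τ} ∧
    (∀ z : ℂ, |z.re - x₀| ≤ η' → t₁ + τ ≤ z.im → z.im ≤ t₂ - τ → g z ∈ W) ∧
    ∀ z ζ : ℂ, |z.re - x₀| ≤ η' → t₁ + τ ≤ z.im → z.im ≤ t₂ - τ → |ζ.re - x₀| ≤ η' → ((t₁ - η' ≤ ζ.im ∧ ζ.im ≤ t₁ + τ / 2) ∨ (t₂ - τ / 2 ≤ ζ.im ∧ ζ.im ≤ t₂ + η')) → g z ≠ g ζ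

/-- STP (medium): the map in the time coordinate.
PROOF. `R' = {|Re - x₀| ≤ η', a ≤ Im ≤ b}` compact, `g` injective on a neighbourhood `R''` (closed rectangle, hypothesis). `k` = the inverse of `g` on the open set `g (interior R'')` (holomorphic, `k' (g z) = 1/deriv g z`). For `z ∈ R'`: `F j (g z) ∈ g (interior R'')` for large `j` (`F j (g z) - g z = ε j (..) → 0` uniformly, `g '' R'` compact), `A z = k (F j (g z))`.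
`A z - z = k (F j w) - k w`, `w = g z`: Taylor with a uniform bound of `k''` near the compact `g '' R'`: `= (F j w - w) k' w + O(ε j²)`, `(F j w - w)/ε j → V w = deriv g z` uniformly on `g '' R'`: `(A z - z)/ε j → 1` uniformly. Holomorphic as a composition. -/
def STP_stmt : Prop := ∀ (U : Ultrafilter ℕ) (W : Set ℂ) (V : ℂ → ℂ) (F : ℕ → ℂ → ℂ) (D : ℕ → Set ℂ) (ε : ℕ → ℝ), FS U W V F D ε →
  ∀ (g : ℂ → ℂ) (x₀ η a b η' : ℝ), 0 < η' → η' < η → DifferentiableOn ℂ g (Rc x₀ η (a - η) (b + η)) → (∀ z ∈ Rc x₀ η (a - η) (b + η), deriv g z = V (g z) ∧ V (g z) ≠ 0) →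
  InjOn g {z | |z.re - x₀| ≤ η' ∧ a - η' ≤ z.im ∧ z.im ≤ b + η'} → ∀ δ : ℝ, 0 < δ → ∀ᶠ j in (U : Filter ℕ), ∃ A : ℂ → ℂ,
    DifferentiableOn ℂ A (Rc x₀ (η' / 2) a b) ∧ ∀ z ∈ Rc x₀ (η' / 2) a b, ‖A z - z - ε j‖ ≤ δ * ε j ∧ F j (g z) = g (A z)

/-- LEG (medium): the end of the crosscut: a straight leg in the chart from a point of the slice to the first point outside `D j`. `e = t₂`, `u = 1` (upper end) or `e = t₁`, `u = -1` (lower end); `p = ⟨x₀, e - u τ/2⟩`.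
PROOF. `β = g ⟨x₀,e⟩ ∉ W`, `deriv g ⟨x₀,e⟩ ≠ 0`: `g` maps the ball `ball ⟨x₀,e⟩ ρ'`, `ρ' ≤ ρ`, onto a neighbourhood `ball β ρ''` (open mapping). `ball β ρ''` meets `W` (`g ⟨x₀, t⟩ → β`) and is not in `W`: by `ker` it is not contained in `D j` for almost all `j`; `U` is an ultrafilter: for almost all `j` there is `e' ∈ ball β ρ''`, `e' ∉ D j`; `e' = g ξ'`, `‖ξ' - ⟨x₀,e⟩‖ < ρ`.
`g p ∈ W`, so `g p ∈ D j` (`kW`). `T = sup {t ∈ [0,1] | g (p + t' (ξ' - p)) ∈ D j for t' ≤ t}`, `ξ = p + T (ξ' - p)`: `g ξ ∉ D j` (`D j` is open), all points before are in `D j`. For `‖ξ - ..‖`: the segment `[p, ⟨x₀, e - u ρ/2⟩ ]` is mapped into a compact subset of `W`, so (uniformly for `ξ'` near `⟨x₀,e⟩`) `T` is so large that `‖ξ - ⟨x₀,e⟩‖ < 2 ρ` (choose `ρ'` small: the points `p + t (ξ' - p)` with distance `≥ ρ` from `⟨x₀,e⟩` are within `ρ'` of the compact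 part of the slice). -/
def LEG_stmt : Prop := ∀ (U : Ultrafilter ℕ) (W : Set ℂ) (V : ℂ → ℂ) (F : ℕ → ℂ → ℂ) (D : ℕ → Set ℂ) (ε : ℕ → ℝ), FS U W V F D ε →
  ∀ (g : ℂ → ℂ) (x₀ t₁ t₂ η : ℝ), SLC W V g x₀ t₁ t₂ η → ∀ τ ρ : ℝ, 0 < τ → τ < (t₂ - t₁) / 4 → 0 < ρ → ρ < η / 2 → ρ < τ / 4 →
  ∀ e u : ℝ, (e = t₂ ∧ u = 1) ∨ (e = t₁ ∧ u = -1) → ∀ᶠ j in (U : Filter ℕ), ∃ ξ : ℂ, ‖ξ - ⟨x₀, e⟩‖ < ρ ∧ g ξ ∉ D j ∧
    ∀ ζ ∈ segment ℝ (⟨x₀, e - u * τ / 2⟩ : ℂ) ξ, ζ ≠ ξ → g ζ ∈ D j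

/-- `GTE` = GATES EXIST at almost all stages, for every quality `δ`: chart `ψ z = g (x₀ + i t₀ + ε z)`, `g' = V (g)`, height `T` (in the time coordinate), width `η`; exit discs `ball bm θ`, `ball bp θ`. -/
def GTE (U : Ultrafilter ℕ) (V : ℂ → ℂ) (F : ℕ → ℂ → ℂ) (D : ℕ → Set ℂ) (ε : ℕ → ℝ) (g : ℂ → ℂ) (x₀ t₀ T η : ℝ) (bm bp : ℂ) (θ : ℝ) : Prop :=
  0 < T ∧ 0 < η ∧ DifferentiableOn ℂ g (Rc x₀ (2 * η) (t₀ - 2 * η) (t₀ + T + 2 * η)) ∧ InjOn g (Rc x₀ (2 * η) (t₀ - 2 * η) (t₀ + T + 2 * η)) ∧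
  (∀ z ∈ Rc x₀ (2 * η) (t₀ - 2 * η) (t₀ + T + 2 * η), deriv g z = V (g z) ∧ V (g z) ≠ 0) ∧
  ∀ δ : ℝ, 0 < δ → δ ≤ 1 / 100 → ∀ᶠ j in (U : Filter ℕ), ∃ (A : ℂ → ℂ) (sg Lf Rt B : Set ℂ),
    Gate (F j) (D j) bm bp θ (fun z => g (⟨x₀, t₀⟩ + ε j * z)) A (η / ε j) (T / ε j) δ sg Lf Rt B

/-- GSL (medium): THE GATE FROM A SLICE. Uses SID, INW, STP, LEG.
PROOF. `b∓ = g ⟨x₀,t₁⟩, g ⟨x₀,t₂⟩`. Choose `τ` so small that `g ζ ∈ ball b₊ θ` for `|ζ.re - x₀| ≤ τ`, `t₂ - 2τ ≤ ζ.im ≤ t₂ + τ`, the same for `b₋`. INW with `τ/2` and with `τ/4`: `η₁`; STP on the rectangle `t₁ + 3τ/4 ≤ Im ≤ t₂ - 3τ/4` (injectivity from INW with `τ/2`): `A₀` with `‖A₀ z - z - ε‖ ≤ δ ε`. LEG with `τ/2`, `ρ < η₁`: `ξ₋, ξ₊`. `η = η₁/4`.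
SID with `a = ξ₋`, `b = ⟨x₀, t₁ + τ/4⟩`, `c = ⟨x₀, t₂ - τ/4⟩`, `d = ξ₊`, `Q = Rc x₀ η₁ (t₁ + τ/2) (t₂ - τ/2)` (the closed rectangle is mapped into a compact part of `W`: into `D j`; the legs have `Im ≤ t₁ + τ/4` or `≥ t₂ - τ/4`, INW with `τ/2` separates them from `Q`, INW with `τ/4` gives the injectivity for `segment b c`).
`t₀ = t₁ + τ`, `T = t₂ - t₁ - 2τ`, `A z = (A₀ (⟨x₀,t₀⟩ + ε z) - ⟨x₀,t₀⟩)/ε`, `sg` = the image of the three segments, `B = ψ '' {|Re| ≤ 3, -4 ≤ Im ≤ h + 4}`. `gs`: a point `v = g ζ` of `sg` outside the discs has `ζ` on the vertical segment with `t₁ + 2τ ≤ Im ζ ≤ t₂ - 2τ`, so `v = ψ (i s)`, `0 ≤ s ≤ h`, `F v = ψ (A (i s))`, `Re A (i s) ≥ 99/100`. -/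
def GSL_stmt : Prop := ∀ (U : Ultrafilter ℕ) (W : Set ℂ) (V : ℂ → ℂ) (F : ℕ → ℂ → ℂ) (D : ℕ → Set ℂ) (ε : ℕ → ℝ), FS U W V F D ε →
  ∀ (g : ℂ → ℂ) (x₀ t₁ t₂ η : ℝ), SLC W V g x₀ t₁ t₂ η → ∀ θ : ℝ, 0 < θ → ∃ τ η' : ℝ, 0 < τ ∧ τ ≤ (t₂ - t₁) / 8 ∧ τ ≤ θ ∧ η' ≤ τ ∧
    GTE U V F D ε g x₀ (t₁ + τ) (t₂ - t₁ - 2 * τ) η' (g ⟨x₀, t₁⟩) (g ⟨x₀, t₂⟩) θ ∧
    ∀ δ : ℝ, 0 < δ → δ ≤ 1 / 100 → ∀ᶠ j in (U : Filter ℕ), ∃ (A : ℂ → ℂ) (sg Lf Rt B : Set ℂ),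
      Gate (F j) (D j) (g ⟨x₀, t₁⟩) (g ⟨x₀, t₂⟩) θ (fun z => g (⟨x₀, t₁ + τ⟩ + ε j * z)) A (η' / ε j) ((t₂ - t₁ - 2 * τ) / ε j) δ sg Lf Rt B ∧
      (∀ v ∈ sg, v ∈ ball (g ⟨x₀, t₁⟩) θ ∨ v ∈ ball (g ⟨x₀, t₂⟩) θ ∨ ∃ t ∈ Icc (t₁ + τ) (t₂ - τ), v = g ⟨x₀, t⟩) ∧
      B = (fun z => g (⟨x₀, t₁ + τ⟩ + ε j * z)) '' {z : ℂ | |z.re| ≤ 3 ∧ -4 ≤ z.im ∧ z.im ≤ (t₂ - t₁ - 2 * τ) / ε j + 4}

/-! ## 3. The centre of the field (dilation type with the centre inside) -/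

/-- LIN (short/medium): linearization of the field at a simple zero.
PROOF. `a/V(w) - 1/(w - wp)` has a removable singularity at `wp`, `Q` a primitive with `Q wp = 0` on a small ball, `κ w = (w - wp) exp (Q w)`: `κ' V = a κ`, `κ' wp = 1`: injective on a smaller ball. -/
def LIN_stmt : Prop := ∀ (V : ℂ → ℂ) (wp a : ℂ), Differentiable ℂ V → V wp = 0 → deriv V wp = a → a ≠ 0 →
  ∃ r > (0 : ℝ), ∃ κ : ℂ → ℂ, DifferentiableOn ℂ κ (ball wp r) ∧ InjOn κ (ball wp r) ∧ κ wp = 0 ∧ deriv κ wp = 1 ∧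
    (∀ w ∈ ball wp r, deriv κ w ≠ 0 ∧ V w * deriv κ w = a * κ w)

/-- CEN (medium): THE GATE AT A REPELLING CENTRE (`D = univ`, no exit discs). Uses LIN, STP.
PROOF. `κ` of LIN, `κ '' ball wp r ⊇ closedBall 0 (3 ρ)`, `ρ` small. `g ξ = κ⁻¹ (exp (a ξ))` for `Re ξ < log (3ρ)/a`: `g' = V (g)`. `x₀ = log ρ / a`, `T = π/a`, `t₀ = 0`, `η ≤ 1/(8 a)` (heights `< 2π/a`: injective). STP gives `A`. `sg = {w ∈ ball wp r | ‖κ w‖ = ρ}`, `Lf = {.. < ρ}`, `Rt` = the complement of `{w ∈ ball wp r | ‖κ w‖ ≤ ρ}` (compact), `B = {w ∈ ball wp r | ρ/2 < ‖κ w‖ < 2ρ}` (image of an annulus: connected).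
`gs`: `κ (F j w) = κ w + ε (κ' V + o(1)) = κ w (1 + ε a + o(ε))` uniformly for `‖κ w‖ = ρ`: `ρ < ‖κ (F j w)‖ < 2ρ` for large `j`. -/
def CEN_stmt : Prop := ∀ (U : Ultrafilter ℕ) (W : Set ℂ) (V : ℂ → ℂ) (F : ℕ → ℂ → ℂ) (D : ℕ → Set ℂ) (ε : ℕ → ℝ), FS U W V F D ε →
  ∀ (wp : ℂ) (a : ℝ), 0 < a → V wp = 0 → deriv V wp = a → ∀ ρ₀ : ℝ, 0 < ρ₀ →
  ∃ (g : ℂ → ℂ) (x₀ T η : ℝ), GTE U V F (fun _ => univ) ε g x₀ 0 T η wp wp 0 ∧ MapsTo g (Rc x₀ (2 * η) (0 - 2 * η) (0 + T + 2 * η)) (ball wp ρ₀) ∧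
    ∀ δ : ℝ, 0 < δ → δ ≤ 1 / 100 → ∀ᶠ j in (U : Filter ℕ), ∃ (A : ℂ → ℂ) (sg Lf Rt B : Set ℂ),
      Gate (F j) univ wp wp 0 (fun z => g (⟨x₀, 0⟩ + ε j * z)) A (η / ε j) (T / ε j) δ sg Lf Rt B ∧ sg ⊆ ball wp ρ₀ ∧ Lf ⊆ ball wp ρ₀ ∧ B ⊆ ball wp ρ₀

/-- ATT (short): at an attracting centre `F j` maps a fixed ball into itself.
PROOF. `V w = a (w - wp) + O(‖w - wp‖²)`: on `‖w - wp‖ = r` (and `≤ r`) `‖w + ε (V w + o(1)) - wp‖ ≤ (1 - ε |a|/2) r + ε o(1) < r`; maximum principle, or directly for all `w` of the closed ball: for `‖w - wp‖ ≤ r/2` trivial. -/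
def ATT_stmt : Prop := ∀ (U : Ultrafilter ℕ) (W : Set ℂ) (V : ℂ → ℂ) (F : ℕ → ℂ → ℂ) (D : ℕ → Set ℂ) (ε : ℕ → ℝ), FS U W V F D ε →
  ∀ (wp : ℂ) (a : ℝ), a < 0 → V wp = 0 → deriv V wp = a → ∃ r > (0 : ℝ), ∀ᶠ j in (U : Filter ℕ), ∀ w ∈ ball wp r, F j w ∈ ball wp r

/-! ## 4. The contradiction with the area of the Julia set -/

/-- JBX (medium): if almost all curves of the box are in the interior of the filled Julia set (`CK j` = the complement of the interior, forward invariant), then a box on the left of the slice, of fixed size, is in the interior up to area `o(1)`.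
PROOF. `R = Rc x₀ (2η) ..`. STP-like map `A` of the hypothesis is in step units; in time units `a z = p + ε A ((z - p)/ε)`, `p = ⟨x₀,t₀⟩`, `‖a z - z - ε‖ ≤ δ ε` on `{|Re - x₀| < η - 2ε, ..}`, `F j (g z) = g (a z)`, `a` is injective there (`g` injective, `‖a' - 1‖ ≤ 1/10` by Cauchy on balls of radius `η/4`). `c = min (η/4) (T/16)`, `LB = {x₀ - c < Re < x₀, t₀ + T/4 < Im < t₀ + 3T/4}`.
For `z ∈ LB`, `i ≤ 2c/ε`: `a^[i] z` is defined, `‖a^[i] z - z - i ε‖ ≤ δ i ε ≤ c/10`, and `‖(a^[i])' - 1‖ ≤ 1/2` (Cauchy on balls of radius `c/4`). Let `w = g z ∈ CK j`, `i` = the first index with `Re (a^[i] z) ≥ x₀`: `i ≥ 1`, `a^[i] z` is between the line `Re = x₀` and its image under `a`, so `a^[i] z = p + ε (i' s + x (A (i' s) - i' s))` (`i'` the imaginary unit) for some `0 ≤ x ≤ 1`, `0 < s < T/ε` (row `EGH.BOX`: the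
map `M (x + i s) = i s + x (A (i s) - i s)` is a homeomorphism of the strip onto the region between the two lines; surjectivity: for a point `u` with `Re` between, the function `x ↦` ... or the intermediate value theorem on `Re` and degree; simplest: the slanted segments from `i s` to `A (i s)` are disjoint and fill the region because `(x, s) ↦ M` is `id + ` Lipschitz `1/10`: Banach fixed point) and
`F j^[i] w = ψ (M ..) ∈ CK j`: the height `s` is bad. So `{z ∈ LB | g z ∈ CK j} ⊆ ⋃_(i ≤ 2c/ε) (a^[i])⁻¹ (p + ε M ([0,1] × bad))`, area `≤ (2c/ε + 1) · 4 · ε² · 2 · vol bad ≤ 32 c μ j`. `g` is Lipschitz on `LB`. -/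
def JBX_stmt : Prop := ∀ (U : Ultrafilter ℕ) (W : Set ℂ) (V : ℂ → ℂ) (F : ℕ → ℂ → ℂ) (D : ℕ → Set ℂ) (ε : ℕ → ℝ), FS U W V F D ε →
  ∀ (g : ℂ → ℂ) (x₀ t₀ T η : ℝ), 0 < T → 0 < η → DifferentiableOn ℂ g (Rc x₀ (2 * η) (t₀ - 2 * η) (t₀ + T + 2 * η)) → InjOn g (Rc x₀ (2 * η) (t₀ - 2 * η) (t₀ + T + 2 * η)) →
  ∀ (CK : ℕ → Set ℂ) (μ : ℕ → ℝ), (∀ᶠ j in (U : Filter ℕ), ∀ w ∈ CK j, F j w ∈ CK j) → Tendsto μ U (𝓝 0) →
  (∀ᶠ j in (U : Filter ℕ), ∃ A : ℂ → ℂ, DifferentiableOn ℂ A (BX (η / ε j - 2) (-6) (T / ε j + 6)) ∧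
    (∀ z ∈ BX (η / ε j - 2) (-6) (T / ε j + 6), ‖A z - z - 1‖ ≤ 1 / 100 ∧ F j (g (⟨x₀, t₀⟩ + ε j * z)) = g (⟨x₀, t₀⟩ + ε j * A z)) ∧
    ENNReal.ofReal (ε j) * volume {s : ℝ | s ∈ Ioo 0 (T / ε j) ∧ ∃ x ∈ Icc (0 : ℝ) 1, g (⟨x₀, t₀⟩ + ε j * (⟨0, s⟩ + x * (A ⟨0, s⟩ - ⟨0, s⟩))) ∈ CK j} ≤ ENNReal.ofReal (μ j)) →
  ∃ c > (0 : ℝ), c ≤ η ∧ Tendsto (fun j => volume (CK j ∩ g '' {z : ℂ | x₀ - c < z.re ∧ z.re < x₀ ∧ t₀ + T / 4 < z.im ∧ z.im < t₀ + 3 * T / 4})) U (𝓝 0)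

/-! ## 5. Tools for the place -/

/-- EXD (short): the steps near an end of the slice.
PROOF. `V` is continuous, `V β ≠ 0`: choose `θ₀` with `‖V w - V β‖ ≤ ‖V β‖/20` on `closedBall β (10 θ₀)`; `(F j w - w)/ε j → V w` uniformly there. -/
def EXD_stmt : Prop := ∀ (U : Ultrafilter ℕ) (W : Set ℂ) (V : ℂ → ℂ) (F : ℕ → ℂ → ℂ) (D : ℕ → Set ℂ) (ε : ℕ → ℝ), FS U W V F D ε →
  ∀ β : ℂ, V β ≠ 0 → ∃ θ₀ > (0 : ℝ), ∀ θ : ℝ, 0 < θ → θ ≤ θ₀ → ∀ᶠ j in (U : Filter ℕ), ∀ w ∈ ball β (10 * θ),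
    9 / 10 * (ε j * ‖V β‖) ≤ ‖F j w - w‖ ∧ ‖F j w - w‖ ≤ 11 / 10 * (ε j * ‖V β‖)

/-- AFT (short): the gate in the plane `z = y + r w`. `F' z = y + r F ((z - y)/r)`. All fields are affine invariant. -/
def AFT_stmt : Prop := ∀ (F : ℂ → ℂ) (D : Set ℂ) (bm bp : ℂ) (th : ℝ) (ψ A : ℂ → ℂ) (ℓ h δ : ℝ) (sg Lf Rt B : Set ℂ) (y : ℂ) (r : ℝ), 0 < r →
  Gate F D bm bp th ψ A ℓ h δ sg Lf Rt B →
  Gate (fun z => y + r * F ((z - y) / r)) ((fun w => y + r * w) '' D) (y + r * bm) (y + r * bp) (r * th) (fun z => y + r * ψ z) A ℓ h δ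
    ((fun w => y + r * w) '' sg) ((fun w => y + r * w) '' Lf) ((fun w => y + r * w) '' Rt) ((fun w => y + r * w) '' B)

/-- LGD (short): univalent images of the disc have the logarithm property; so have affine images.
PROOF. `φ u - k` has no zero on the disc: `φ u - k = exp (L u)` (primitive of `φ'/(φ - k)` on the ball), `L ∘ φ⁻¹`; `φ⁻¹` is holomorphic on the open set `φ '' ball 0 1` (inverse function theorem). -/
def LGD_stmt : Prop := (∀ φ : ℂ → ℂ, DifferentiableOn ℂ φ (ball 0 1) → InjOn φ (ball 0 1) → LGP (φ '' ball 0 1)) ∧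
  ∀ (D : Set ℂ) (a b : ℂ), a ≠ 0 → LGP D → LGP ((fun z => a * z + b) '' D)

end P2W
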